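import Pool.Agent.W314.BA.Stm

/-! MP_f2742c_an, part BA-OP: the averages as operators on `L²`. -/

open MeasureTheory Set Filter Topology Real
open scoped ENNReal NNReal

namespace Pool.Agent.W912.BA.OP

open Pool.Agent.W314.BA

noncomputable section

section
variable {Y : Type} [MeasurableSpace Y] [MulAction G Y] {μ : Measure Y} {c : G → Y → ℤ}

theorem norm_ee (t : ℝ) : ‖ee t‖ = 1 := by
  unfold ee
  have : (2 * π * Complex.I * t : ℂ) = ((2 * π * t : ℝ) : ℂ) * Complex.I := by push_cast; ring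
  rw [this, Complex.norm_exp_ofReal_mul_I]

theorem cont_ee : Continuous ee := by
  unfold ee
  fun_prop

theorem meas_int (hS : Sys μ c) (θ : ℝ) (f : Y → ℂ) (hf : BM f) (y : Y) :
    Measurable (fun g : G => ee (θ * c g y) * f (g • y)) := by
  have h1 : Measurable (fun g : G => c g y) :=
    hS.c_meas.comp (measurable_id.prodMk measurable_const)
  have h2 : Measurable (fun g : G => g • y) :=
    hS.smul_meas.comp (measurable_id.prodMk measurable_const)
  have h3 : Measurable (fun n : ℤ => ee (θ * n)) := measurable_of_countable _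
  exact (h3.comp h1).mul (hf.1.comp h2)

theorem int_int (hS : Sys μ c) (θ x : ℝ) (f : Y → ℂ) (hf : BM f) (y : Y) :
    Integrable (fun g : G => ee (θ * c g y) * f (g • y)) (bm x) := by
  obtain ⟨C, hC⟩ := hf.2
  refine Integrable.of_bound (meas_int hS θ f hf y).aestronglyMeasurable C
    (Eventually.of_forall fun g => ?_)
  rw [norm_mul, norm_ee, one_mul]
  exact hC _

theorem tw_add (hS : Sys μ c) (θ x : ℝ) (f f' : Y → ℂ) (hf : BM f) (hf' : BM f') (y : Y) :
    tw c θ (bm x) (fun z => f z + f' z) y = tw c θ (bm x) f y + tw c θ (bm x) f' y := by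
  unfold tw
  rw [← integral_add (int_int hS θ x f hf y) (int_int hS θ x f' hf' y)]
  congr 1
  funext g
  ring

theorem tw_smul (θ x : ℝ) (a : ℂ) (f : Y → ℂ) (y : Y) :
    tw c θ (bm x) (fun z => a * f z) y = a * tw c θ (bm x) f y := by
  unfold tw
  rw [← integral_const_mul]
  congr 1
  funext g
  ring

theorem BM.add {f f' : Y → ℂ} (hf : BM f) (hf' : BM f') : BM (fun z => f z + f' z) := by
  obtain ⟨h, C, hC⟩ := hf
  obtain ⟨h', C', hC'⟩ := hf'
  exact ⟨h.add h', C + C', fun y => (norm_add_le _ _).trans (add_le_add (hC y) (hC' y))⟩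

theorem BM.smul {f : Y → ℂ} (a : ℂ) (hf : BM f) : BM (fun z => a * f z) := by
  obtain ⟨h, C, hC⟩ := hf
  refine ⟨h.const_mul a, ‖a‖ * C, fun y => ?_⟩
  rw [norm_mul]
  exact mul_le_mul_of_nonneg_left (hC y) (norm_nonneg _)

variable (Y) in
/-- The space of bounded measurable functions. -/
def BS : Submodule ℂ (Y → ℂ) where
  carrier := {f | BM f}
  add_mem' := fun {f g} hf hg => BM.add hf hg
  zero_mem' := ⟨measurable_const, 0, fun y => by simp⟩
  smul_mem' := fun a f hf => BM.smul a hf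

theorem memLp_BM [IsProbabilityMeasure μ] {f : Y → ℂ} (hf : BM f) : MemLp f 2 μ := by
  obtain ⟨h, C, hC⟩ := hf
  exact MemLp.of_bound h.aestronglyMeasurable C (Eventually.of_forall hC)

/-- Inclusion of the bounded functions in `L²`. -/
def inc (μ : Measure Y) [IsProbabilityMeasure μ] : BS Y →ₗ[ℂ] Lp ℂ 2 μ where
  toFun f := (memLp_BM (μ := μ) f.2).toLp f
  map_add' f g := rfl
  map_smul' a f := rfl

theorem inc_coe (μ : Measure Y) [IsProbabilityMeasure μ] (f : BS Y) :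
    (inc μ f : Y → ℂ) =ᵐ[μ] (f : Y → ℂ) := (memLp_BM (μ := μ) f.2).coeFn_toLp

theorem inc_dense (μ : Measure Y) [IsProbabilityMeasure μ] : DenseRange (inc μ) := by
  have h := Lp.simpleFunc.denseRange (E := ℂ) (μ := μ) (p := 2) (by norm_num)
  refine h.mono ?_
  rintro _ ⟨u, rfl⟩
  have hm : BM (Lp.simpleFunc.toSimpleFunc u : Y → ℂ) := by
    refine ⟨(Lp.simpleFunc.toSimpleFunc u).measurable, ?_⟩
    obtain ⟨C, hC⟩ := (Lp.simpleFunc.toSimpleFunc u).exists_forall_norm_le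
    exact ⟨C, hC⟩
  refine ⟨⟨_, hm⟩, ?_⟩
  apply Lp.ext
  exact (inc_coe μ _).trans (Lp.simpleFunc.toSimpleFunc_eq_toFun u)

/-- The average on bounded functions. -/
def tl (h1 : Basic1Stmt) (hS : Sys μ c) [IsProbabilityMeasure μ] (θ x : ℝ) (hx : 1 < x) :
    BS Y →ₗ[ℂ] Lp ℂ 2 μ where
  toFun f := inc μ ⟨tw c θ (bm x) f, (h1 Y μ c hS θ f f.2).1 x hx⟩
  map_add' f g := by
    rw [← map_add]
    congr 1
    ext y
    exact tw_add hS θ x f g f.2 g.2 y
  map_smul' a f := by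
    rw [← map_smul]
    congr 1
    ext y
    exact tw_smul θ x a f y

theorem norm_sq_inc [IsProbabilityMeasure μ] (f : BS Y) :
    ‖inc μ f‖ ^ 2 = ∫ y, ‖(f : Y → ℂ) y‖ ^ 2 ∂μ := by
  have h : inner ℂ (inc μ f) (inc μ f) = ((‖inc μ f‖ ^ 2 : ℝ) : ℂ) := by
    rw [inner_self_eq_norm_sq_to_K]
    simp
  rw [L2.inner_def] at h
  have h2 : ∫ y, inner ℂ (inc μ f y) (inc μ f y) ∂μ = ((∫ y, ‖(f : Y → ℂ) y‖ ^ 2 ∂μ : ℝ) : ℂ) := by
    rw [← integral_complex_ofReal]
    apply integral_congr_ae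
    filter_upwards [inc_coe μ f] with y hy
    rw [hy, inner_self_eq_norm_sq_to_K]
    simp
  rw [h2] at h
  exact (Complex.ofReal_injective h).symm

theorem tl_le (h1 : Basic1Stmt) (h2 : Basic2Stmt) (hS : Sys μ c) [IsProbabilityMeasure μ]
    (θ x : ℝ) (hx : 1 < x) (f : BS Y) : ‖tl h1 hS θ x hx f‖ ≤ 1 * ‖inc μ f‖ := by
  rw [one_mul]
  apply le_of_sq_le_sq _ (norm_nonneg _)
  show ‖inc μ _‖ ^ 2 ≤ _
  rw [norm_sq_inc, norm_sq_inc]
  exact (h2 Y μ c hS θ f f f.2 f.2 x hx).2.1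

end

theorem main (h1 : Basic1Stmt) (h2 : Basic2Stmt) (h3 : CommStmt) : OpStmt := by
  intro Y _ _ μ c hS θ
  haveI := hS.prob
  classical
  let A : ℝ → (Lp ℂ 2 μ →L[ℂ] Lp ℂ 2 μ) := fun x =>
    if hx : 1 < x then (tl h1 hS θ x hx).extendOfNorm (inc μ) else 0
  have hA : ∀ (x : ℝ) (hx : 1 < x) (f : BS Y), A x (inc μ f) = tl h1 hS θ x hx f := by
    intro x hx f
    simp only [A, dif_pos hx]
    exact LinearMap.extendOfNorm_eq (inc_dense μ) ⟨1, tl_le h1 h2 hS θ x hx⟩ f
  have hd := inc_dense μ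
  refine ⟨A, ⟨?_, ?_, ?_⟩, ?_⟩
  · intro x hx u v
    refine hd.induction_on₂ (p := fun u v => inner ℂ (A x u) v = inner ℂ u (A x v)) ?_ ?_ u v
    · exact isClosed_eq (by fun_prop) (by fun_prop)
    · intro f g
      rw [hA x hx, hA x hx, L2.inner_def, L2.inner_def]
      have e := (h2 Y μ c hS θ g f g.2 f.2 x hx).1
      have e1 : ∫ y, inner ℂ (tl h1 hS θ x hx f y) (inc μ g y) ∂μ =
          ∫ y, (g : Y → ℂ) y * (starRingEnd ℂ) (tw c θ (bm x) f y) ∂μ := by
        apply integral_congr_ae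
        filter_upwards [inc_coe μ g, inc_coe μ ⟨tw c θ (bm x) f, (h1 Y μ c hS θ f f.2).1 x hx⟩]
          with y hy hy2
        rw [hy, show (tl h1 hS θ x hx f : Y → ℂ) y = tw c θ (bm x) f y from hy2]
        simp [mul_comm]
      have e2 : ∫ y, inner ℂ (inc μ f y) (tl h1 hS θ x hx g y) ∂μ =
          ∫ y, tw c θ (bm x) g y * (starRingEnd ℂ) ((f : Y → ℂ) y) ∂μ := by
        apply integral_congr_ae
        filter_upwards [inc_coe μ f, inc_coe μ ⟨tw c θ (bm x) g, (h1 Y μ c hS θ g g.2).1 x hx⟩]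
          with y hy hy2
        rw [hy, show (tl h1 hS θ x hx g : Y → ℂ) y = tw c θ (bm x) g y from hy2]
        simp [mul_comm]
      rw [e1, e2, e]
  · intro x hx u
    simp only [A, dif_pos hx]
    have := LinearMap.norm_extendOfNorm_apply_le (inc_dense μ) 1 (tl_le h1 h2 hS θ x hx) u
    rwa [one_mul] at this
  · intro x y hx hy u
    refine hd.induction_on (p := fun u => A x (A y u) = A y (A x u)) u ?_ ?_
    · exact isClosed_eq (by fun_prop) (by fun_prop)
    · intro f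
      rw [hA x hx, hA y hy]
      show A x (inc μ _) = A y (inc μ _)
      rw [hA x hx, hA y hy]
      show inc μ _ = inc μ _
      congr 1
      ext z
      exact h3 Y μ c hS θ f f.2 x y hx hy z
  · intro x hx u f hf hu
    have : u = inc μ ⟨f, hf⟩ := Lp.ext (hu.trans (inc_coe μ ⟨f, hf⟩).symm)
    rw [this, hA x hx]
    exact inc_coe μ _

end

end Pool.Agent.W912.BA.OP
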